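import Mathlib

/-!
# MP_903317_co, Q1: the conjecture on smallest non-bipartite regular graphs of diameter 2 and girth 4
is false (the uniqueness assertion fails for k = 11 and for every k whose least prime divisor is 11).

For k = 11 q the base graph is the Vega graph on 12 vertices (Brandt and Pisanski) obtained from the
Andrasfai graph on 5 vertices; its regular weighting is (2,2,3,3,1,1,4,3,3,4,3,3), of degree 11 and
total weight 32 = 3 * 11 - 1.
-/

namespace Pool.Agent.Results.MP_903317_co.VegaBlowup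

open SimpleGraph

/-- The class `F(k,d)`: `k`-regular, not bipartite, of diameter exactly `d`, of girth exactly `2d`. -/
structure IsF (k d : ℕ) {V : Type} (G : SimpleGraph V) : Prop where
  regular : ∀ v, (G.neighborSet v).ncard = k
  notBipartite : ¬ G.IsBipartite
  diameter : G.ediam = d
  girth : G.egirth = ((2 * d : ℕ) : ℕ∞)

/-- `f(k,d)`: the least number of vertices of a finite graph in `F(k,d)`
(`⊤` if there is none). -/
noncomputable def f (k d : ℕ) : ℕ∞ :=
  sInf {n : ℕ∞ | ∃ (V : Type) (_ : Fintype V) (G : SimpleGraph V),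
    IsF k d G ∧ (Fintype.card V : ℕ∞) = n}

/-- The graph `G_k(p,q)` on `ℤ/(3p-1)qℤ` (with `k = p q`): `i` and `j` are adjacent iff
`i - j ≡ 1 + 3 n (mod 3p-1)` for some `n` in `{0,...,p-1}`. -/
def circ (p q : ℕ) : SimpleGraph (ZMod ((3 * p - 1) * q)) where
  Adj i j := ∃ n : ℕ, n < p ∧ ((i.val : ℤ) - (j.val : ℤ)) ≡ 1 + 3 * (n : ℤ) [ZMOD (3 * (p : ℤ) - 1)]
  symm := ⟨by
    rintro i j ⟨n, hn, h⟩
    refine ⟨p - 1 - n, by omega, ?_⟩
    have e : ((p - 1 - n : ℕ) : ℤ) = (p : ℤ) - 1 - n := by omega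
    rw [e]
    have h1 := (Int.modEq_iff_dvd.1 h)
    rw [Int.modEq_iff_dvd]
    obtain ⟨c, hc⟩ := h1
    refine ⟨1 - c, ?_⟩
    linarith⟩
  loopless := ⟨by
    rintro i ⟨n, hn, h⟩
    rw [Int.modEq_iff_dvd] at h
    have h2 := Int.le_of_dvd (by omega) h
    omega⟩

/-- The conjecture for the degree `k`: with `p` the least prime divisor of `k`, one has
`f(k,2) = 3k - k/p`, and every graph in `F(k,2)` with exactly `3k - k/p` vertices is isomorphic to
`G_k(p, k/p)`. -/
def Conj (k : ℕ) : Prop :=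
  f k 2 = ((3 * k - k / k.minFac : ℕ) : ℕ∞) ∧
  ∀ (V : Type) (_ : Fintype V) (G : SimpleGraph V), IsF k 2 G →
    Fintype.card V = 3 * k - k / k.minFac → Nonempty (G ≃g circ k.minFac (k / k.minFac))

/-! ### The base graph -/

/-- neighbours in the 12-vertex Vega graph -/
def nb : List (List ℕ) :=
  [[2, 6, 9], [3, 6, 9], [0, 3, 7, 10], [1, 2, 8, 11], [5, 6, 8, 10], [4, 7, 9, 11],
   [0, 1, 4, 7, 11], [2, 5, 6, 8], [3, 4, 7, 9], [0, 1, 5, 8, 10], [2, 4, 9, 11], [3, 5, 6, 10]]

/-- the twin classes of the 32 vertices -/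
def cl : List ℕ :=
  [0, 0, 1, 1, 2, 2, 2, 3, 3, 3, 4, 5, 6, 6, 6, 6, 7, 7, 7, 8, 8, 8, 9, 9, 9, 9, 10, 10, 10, 11,
   11, 11]

/-- adjacency of the weighted Vega graph on 32 vertices -/
def A (i j : Fin 32) : Bool := (nb.getD (cl.getD i 0) []).contains (cl.getD j 0)

lemma A_symm : ∀ i j, A i j = true → A j i = true := by decide +kernel
lemma A_irrefl : ∀ i, ¬ A i i = true := by decide +kernel
lemma A_diam : ∀ i j, A i j = true ∨ ∃ r, A i r = true ∧ A r j = true := by decide +kernel
lemma A_tri : ∀ i j, A i j = true → ∀ l, A j l = true → ¬ A l i = true := by decide +kernel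
lemma A_deg : ∀ i, (Finset.univ.filter fun j => A i j = true).card = 11 := by decide +kernel
lemma A_twin : ∀ (t : Fin 4) (j : Fin 32), A 12 j = A ⟨12 + t.val, by omega⟩ j := by decide +kernel

/-- The `q`-fold blow-up of the 32-vertex graph. -/
def W (q : ℕ) : SimpleGraph (Fin 32 × Fin q) where
  Adj u v := A u.1 v.1 = true
  symm := ⟨fun _ _ h => A_symm _ _ h⟩
  loopless := ⟨fun _ h => A_irrefl _ h⟩

lemma W_adj (q : ℕ) (u v : Fin 32 × Fin q) : (W q).Adj u v ↔ A u.1 v.1 = true := Iff.rfl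

lemma W_mk (q : ℕ) (z : Fin q) {a b : Fin 32} (h : A a b = true) : (W q).Adj (a, z) (b, z) := h

lemma W_regular (q : ℕ) (v : Fin 32 × Fin q) : ((W q).neighborSet v).ncard = 11 * q := by
  have h : (W q).neighborSet v =
      (((Finset.univ.filter fun j => A v.1 j = true) ×ˢ (Finset.univ : Finset (Fin q)) :
        Finset (Fin 32 × Fin q)) : Set (Fin 32 × Fin q)) := by
    ext u
    simp [W_adj]
  rw [h, Set.ncard_coe_finset, Finset.card_product, A_deg, Finset.card_univ, Fintype.card_fin]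

lemma W_notBip (q : ℕ) (hq : 1 ≤ q) : ¬ (W q).IsBipartite := by
  rintro ⟨c⟩
  have z : Fin q := ⟨0, hq⟩
  have h1 := c.valid (v := ((0, z) : Fin 32 × Fin q)) (w := (4, z)) (W_mk q z (by decide +kernel))
  have h2 := c.valid (v := ((4, z) : Fin 32 × Fin q)) (w := (7, z)) (W_mk q z (by decide +kernel))
  have h3 := c.valid (v := ((7, z) : Fin 32 × Fin q)) (w := (2, z)) (W_mk q z (by decide +kernel))
  have h4 := c.valid (v := ((2, z) : Fin 32 × Fin q)) (w := (12, z)) (W_mk q z (by decide +kernel))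
  have h5 := c.valid (v := ((12, z) : Fin 32 × Fin q)) (w := (0, z)) (W_mk q z (by decide +kernel))
  omega

lemma W_edist (q : ℕ) (u v : Fin 32 × Fin q) : (W q).edist u v ≤ 2 := by
  rcases A_diam u.1 v.1 with h | ⟨r, h1, h2⟩
  · have hh : (W q).Adj u v := h
    have := (W q).edist_le (Walk.cons hh Walk.nil)
    refine this.trans ?_
    simp
  · have hh1 : (W q).Adj u (r, u.2) := h1
    have hh2 : (W q).Adj (r, u.2) v := h2
    have := (W q).edist_le (Walk.cons hh1 (Walk.cons hh2 Walk.nil))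
    refine this.trans ?_
    simp

lemma W_ediam (q : ℕ) (hq : 1 ≤ q) : (W q).ediam = (2 : ℕ) := by
  apply le_antisymm
  · exact ediam_le_of_edist_le (W_edist q)
  · have z : Fin q := ⟨0, hq⟩
    have hne : ¬ (W q).edist ((0, z) : Fin 32 × Fin q) (1, z) ≤ 1 := by
      intro h
      rcases (edist_le_one_iff_adj_or_eq).1 h with h | h
      · have h' : A 0 1 = true := h
        revert h'
        decide +kernel
      · simp at h
    have h2 : (2 : ℕ∞) ≤ (W q).edist ((0, z) : Fin 32 × Fin q) (1, z) := by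
      rw [not_le] at hne
      have := Order.add_one_le_of_lt hne
      simpa [one_add_one_eq_two] using this
    exact h2.trans edist_le_ediam

lemma W_egirth (q : ℕ) (hq : 1 ≤ q) : (W q).egirth = ((2 * 2 : ℕ) : ℕ∞) := by
  have z : Fin q := ⟨0, hq⟩
  apply le_antisymm
  · have a1 : (W q).Adj ((0, z) : Fin 32 × Fin q) (4, z) := W_mk q z (by decide +kernel)
    have a2 : (W q).Adj ((4, z) : Fin 32 × Fin q) (1, z) := W_mk q z (by decide +kernel)
    have a3 : (W q).Adj ((1, z) : Fin 32 × Fin q) (5, z) := W_mk q z (by decide +kernel)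
    have a4 : (W q).Adj ((5, z) : Fin 32 × Fin q) (0, z) := W_mk q z (by decide +kernel)
    have hc : (Walk.cons a1 (Walk.cons a2 (Walk.cons a3 (Walk.cons a4 Walk.nil)))).IsCycle := by
      rw [Walk.isCycle_def]
      refine ⟨?_, ?_, ?_⟩
      · rw [Walk.isTrail_def]
        simp [Walk.edges]
      · simp
      · simp [Walk.support]
    have := egirth_le_length hc
    simpa using this
  · rw [le_egirth]
    intro a w hw
    have h3 := hw.three_le_length
    have : w.length ≠ 3 := by
      intro h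
      match w, h with
      | .cons h1 (.cons h2 (.cons h3 .nil)), _ => exact A_tri _ _ h1 _ h2 h3
    have h4 : 4 ≤ w.length := by omega
    exact_mod_cast h4

lemma W_isF (q : ℕ) (hq : 1 ≤ q) : IsF (11 * q) 2 (W q) :=
  ⟨W_regular q, W_notBip q hq, W_ediam q hq, W_egirth q hq⟩

/-! ### The circulant graph has small twin classes -/

/-- the connection set modulo 32 -/
def P (r : ZMod 32) : Prop := ∃ n : Fin 11, r = 1 + 3 * (n.val : ZMod 32)

instance : DecidablePred P := fun _ => inferInstanceAs (Decidable (∃ _, _))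

lemma P_key : ∀ t : ZMod 32, t ≠ 0 → ∃ s : ZMod 32, ¬ (P s ↔ P (s - t)) := by decide +kernel

lemma circ_adj (q : ℕ) (i j : ZMod ((3 * 11 - 1) * q)) :
    (circ 11 q).Adj i j ↔ P ((((i.val : ℤ)) : ZMod 32) - ((j.val : ℤ) : ZMod 32)) := by
  constructor
  · rintro ⟨n, hn, h⟩
    refine ⟨⟨n, hn⟩, ?_⟩
    have := (ZMod.intCast_eq_intCast_iff _ _ 32).2 h
    push_cast at this ⊢
    exact this
  · rintro ⟨n, h⟩
    refine ⟨n.val, n.2, ?_⟩
    have : ((((i.val : ℤ) - (j.val : ℤ) : ℤ)) : ZMod 32) = ((1 + 3 * (n.val : ℤ) : ℤ) : ZMod 32) := by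
      push_cast at h ⊢
      exact h
    exact (ZMod.intCast_eq_intCast_iff _ _ 32).1 this

lemma circ_twin (q : ℕ) (hq : 1 ≤ q) (i j : ZMod ((3 * 11 - 1) * q))
    (h : ∀ x, (circ 11 q).Adj i x ↔ (circ 11 q).Adj j x) :
    i.val % 32 = j.val % 32 := by
  by_contra hne
  have ht : (((i.val : ℤ)) : ZMod 32) - ((j.val : ℤ) : ZMod 32) ≠ 0 := by
    intro h0
    rw [sub_eq_zero, ZMod.intCast_eq_intCast_iff] at h0
    apply hne
    have h1 : ((i.val : ℤ)) % 32 = (j.val : ℤ) % 32 := h0
    omega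
  obtain ⟨s, hs⟩ := P_key _ ht
  apply hs
  -- choose x with i - x = s
  let r : ZMod 32 := (((i.val : ℤ)) : ZMod 32) - s
  have hr : r.val < (3 * 11 - 1) * q := by
    have := ZMod.val_lt r
    omega
  have : NeZero ((3 * 11 - 1) * q) := ⟨by omega⟩
  have hx : ((r.val : ZMod ((3 * 11 - 1) * q))).val = r.val := ZMod.val_cast_of_lt hr
  have hh := h (r.val : ZMod ((3 * 11 - 1) * q))
  rw [circ_adj, circ_adj, hx] at hh
  have e : (((r.val : ℕ) : ℤ) : ZMod 32) = r := by
    push_cast
    exact ZMod.natCast_zmod_val r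
  rw [e] at hh
  have e1 : (((i.val : ℤ)) : ZMod 32) - r = s := by simp [r]
  have e2 : (((j.val : ℤ)) : ZMod 32) - r =
      s - ((((i.val : ℤ)) : ZMod 32) - ((j.val : ℤ) : ZMod 32)) := by
    simp only [r]; ring
  rw [e1, e2] at hh
  exact hh

lemma not_iso (q : ℕ) (hq : 1 ≤ q) : ¬ Nonempty (W q ≃g circ 11 q) := by
  rintro ⟨φ⟩
  have : NeZero ((3 * 11 - 1) * q) := ⟨by omega⟩
  -- the 4q twins (12..15, z)
  let g : Fin 4 × Fin q → Fin 32 × Fin q := fun t => (⟨12 + t.1.val, by omega⟩, t.2)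
  have hg : Function.Injective g := by
    rintro ⟨a, x⟩ ⟨b, y⟩ hab
    simp only [g, Prod.mk.injEq, Fin.mk.injEq] at hab
    ext
    · simp; omega
    · simp [hab.2]
  let z : Fin q := ⟨0, hq⟩
  let i0 := φ (12, z)
  have hmod : ∀ t, (φ (g t)).val % 32 = i0.val % 32 := by
    intro t
    apply circ_twin q hq
    intro x
    obtain ⟨y, rfl⟩ := φ.surjective x
    rw [φ.map_adj_iff, φ.map_adj_iff, W_adj, W_adj]
    simp only [g]
    rw [← A_twin]
  -- map to quotients by 32
  let d : Fin 4 × Fin q → Fin q := fun t => ⟨(φ (g t)).val / 32, by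
    have := ZMod.val_lt (φ (g t))
    omega⟩
  have hd : Function.Injective d := by
    intro a b hab
    simp only [d, Fin.mk.injEq] at hab
    have h1 := hmod a
    have h2 := hmod b
    have h3 : (φ (g a)).val = (φ (g b)).val := by omega
    exact hg (φ.injective (ZMod.val_injective _ h3))
  have := Fintype.card_le_of_injective d hd
  simp at this
  omega

/-- **The conjecture is false.** For every `q ≥ 1` such that the least prime divisor of `11 q` is
`11`, the class `F(11q, 2)` contains a graph with exactly `3k - k/p = 32 q` vertices that is not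
isomorphic to `G_k(11, q)`; so the conjecture fails for `k = 11 q`, in particular for `k = 11` and
for infinitely many `k`. -/
theorem result :
    (∀ q : ℕ, 1 ≤ q → (11 * q).minFac = 11 →
      ∃ G : SimpleGraph (Fin 32 × Fin q), IsF (11 * q) 2 G ∧
        Fintype.card (Fin 32 × Fin q) = 3 * (11 * q) - (11 * q) / 11 ∧
        ¬ Nonempty (G ≃g circ 11 q)) ∧
    (∀ q : ℕ, 1 ≤ q → (11 * q).minFac = 11 → ¬ Conj (11 * q)) ∧
    ¬ Conj 11 ∧
    {k : ℕ | 5 ≤ k.minFac ∧ ¬ Conj k}.Infinite ∧
    ¬ ∀ k : ℕ, 2 ≤ k → 5 ≤ k.minFac → Conj k := by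
  have hcard : ∀ q : ℕ, Fintype.card (Fin 32 × Fin q) = 3 * (11 * q) - (11 * q) / 11 := by
    intro q
    rw [Fintype.card_prod, Fintype.card_fin, Fintype.card_fin]
    omega
  have hmain : ∀ q : ℕ, 1 ≤ q → (11 * q).minFac = 11 → ¬ Conj (11 * q) := by
    intro q hq hm hc
    have h2 := hc.2 (Fin 32 × Fin q) inferInstance (W q) (W_isF q hq) (by rw [hm]; exact hcard q)
    rw [hm, show 11 * q / 11 = q by omega] at h2
    exact not_iso q hq h2
  have h11 : (11 : ℕ).Prime := by norm_num
  have h11c : ¬ Conj 11 := by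
    have := hmain 1 le_rfl (by rw [mul_one]; exact h11.minFac_eq)
    simpa using this
  refine ⟨fun q hq hm => ⟨W q, W_isF q hq, hcard q, not_iso q hq⟩, hmain, h11c, ?_, ?_⟩
  · have hinf : (Set.range fun m : ℕ => 11 * 11 ^ m).Infinite := by
      apply Set.infinite_range_of_injective
      intro a b hab
      have : (11 : ℕ) ^ a = 11 ^ b := by simpa using hab
      exact Nat.pow_right_injective (by norm_num) this
    refine hinf.mono ?_
    rintro _ ⟨m, rfl⟩
    have hm : (11 * 11 ^ m).minFac = 11 := by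
      rw [← pow_succ']
      exact h11.pow_minFac (by omega)
    exact ⟨by simp only [hm]; norm_num, hmain _ (Nat.one_le_pow _ _ (by norm_num)) hm⟩
  · intro h
    exact h11c (h 11 (by norm_num) (by rw [h11.minFac_eq]; norm_num))

end Pool.Agent.Results.MP_903317_co.VegaBlowup
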